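import Mathlib

/-!
# Positivity of the second Bernoulli function on the circle
-/

namespace Pool.Agent.H24.LP

open Real Finset

/-- The second Bernoulli function `B(t) = t² - t + 1/6` (`0 ≤ t ≤ 1`) on `ℝ/ℤ`; the norm of
`AddCircle 1` is the distance to the nearest integer. -/
noncomputable def bern (t : AddCircle (1 : ℝ)) : ℝ := ‖t‖ ^ 2 - ‖t‖ + 1 / 6

lemma norm_coe (x : ℝ) : ‖(x : AddCircle (1 : ℝ))‖ = |x - round x| := by
  rw [AddCircle.norm_eq]
  norm_num

lemma cos_abs_aux (x : ℝ) (m : ℕ) :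
    Real.cos (2 * π * m * |x - round x|) = Real.cos (2 * π * m * x) := by
  rcases abs_choice (x - round x) with h' | h' <;> rw [h']
  · have : 2 * π * m * (x - round x) = 2 * π * m * x - ((m * round x : ℤ) : ℝ) * (2 * π) := by
      push_cast; ring
    rw [this, Real.cos_sub_int_mul_two_pi]
  · have : 2 * π * m * -(x - round x) = -(2 * π * m * x - ((m * round x : ℤ) : ℝ) * (2 * π)) := by
      push_cast; ring
    rw [this, Real.cos_neg, Real.cos_sub_int_mul_two_pi]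

lemma bern_hasSum (x : ℝ) :
    HasSum (fun m : ℕ => 1 / (m : ℝ) ^ 2 * Real.cos (2 * π * m * x))
      (π ^ 2 * bern (x : AddCircle (1 : ℝ))) := by
  have hy : |x - round x| ∈ Set.Icc (0 : ℝ) 1 :=
    ⟨abs_nonneg _, (abs_sub_round x).trans (by norm_num)⟩
  have h := hasSum_one_div_nat_pow_mul_cos (k := 1) one_ne_zero hy
  have e : ((-1 : ℝ) ^ (1 + 1) * (2 * π) ^ (2 * 1) / 2 / ((2 * 1).factorial : ℝ) *
      (Polynomial.map (algebraMap ℚ ℝ) (Polynomial.bernoulli (2 * 1))).eval |x - round x|)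
      = π ^ 2 * bern (x : AddCircle (1 : ℝ)) := by
    rw [bern, norm_coe]
    have h2 : Polynomial.bernoulli (2 * 1) = Polynomial.X ^ 2 - Polynomial.X +
        Polynomial.C (1 / 6 : ℚ) := by
      refine Polynomial.funext fun r => ?_
      simp [Polynomial.bernoulli, Finset.sum_range_succ, bernoulli_two, bernoulli_one,
        bernoulli_zero, ← Polynomial.C_mul_X_pow_eq_monomial]
      norm_num [Nat.choose]
      ring
    rw [h2]
    have h3 : (Polynomial.map (algebraMap ℚ ℝ) (Polynomial.X ^ 2 - Polynomial.X +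
        Polynomial.C (1 / 6 : ℚ))).eval |x - round x|
        = |x - round x| ^ 2 - |x - round x| + 1 / 6 := by
      simp
    rw [h3]
    generalize |x - round x| = y
    have h4 : (((2 * 1 : ℕ).factorial : ℕ) : ℝ) = 2 := by norm_num [Nat.factorial]
    rw [h4]
    ring
  rw [e] at h
  have hf : (fun m : ℕ => 1 / (m : ℝ) ^ 2 * Real.cos (2 * π * m * x))
      = fun n : ℕ => 1 / (n : ℝ) ^ (2 * 1) * Real.cos (2 * π * n * |x - round x|) := by
    funext m
    refine congrArg _ ?_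
    symm
    exact cos_abs_aux x m
  rw [hf]
  exact h

lemma sum_cos_sub {ι : Type*} (s : Finset ι) (θ : ι → ℝ) :
    ∑ i ∈ s, ∑ j ∈ s, Real.cos (θ i - θ j)
      = (∑ i ∈ s, Real.cos (θ i)) ^ 2 + (∑ i ∈ s, Real.sin (θ i)) ^ 2 := by
  simp only [Real.cos_sub, Finset.sum_add_distrib, sq, Finset.sum_mul_sum]

/-- The lifted form of the energy. -/
lemma energy_hasSum {ι : Type*} (s : Finset ι) (x : ι → ℝ) :
    HasSum (fun m : ℕ => 1 / (m : ℝ) ^ 2 *
      ((∑ i ∈ s, Real.cos (2 * π * m * x i)) ^ 2 + (∑ i ∈ s, Real.sin (2 * π * m * x i)) ^ 2))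
      (π ^ 2 * ∑ i ∈ s, ∑ j ∈ s, bern ((x i - x j : ℝ) : AddCircle (1 : ℝ))) := by
  have h : HasSum (fun m : ℕ => ∑ i ∈ s, ∑ j ∈ s,
      (1 / (m : ℝ) ^ 2 * Real.cos (2 * π * m * (x i - x j))))
      (∑ i ∈ s, ∑ j ∈ s, π ^ 2 * bern ((x i - x j : ℝ) : AddCircle (1 : ℝ))) :=
    hasSum_sum fun i _ => hasSum_sum fun j _ => bern_hasSum (x i - x j)
  have e : (∑ i ∈ s, ∑ j ∈ s, π ^ 2 * bern ((x i - x j : ℝ) : AddCircle (1 : ℝ)))
      = π ^ 2 * ∑ i ∈ s, ∑ j ∈ s, bern ((x i - x j : ℝ) : AddCircle (1 : ℝ)) := by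
    simp only [Finset.mul_sum]
  rw [e] at h
  have hf : (fun m : ℕ => 1 / (m : ℝ) ^ 2 *
      ((∑ i ∈ s, Real.cos (2 * π * m * x i)) ^ 2 + (∑ i ∈ s, Real.sin (2 * π * m * x i)) ^ 2))
      = fun m : ℕ => ∑ i ∈ s, ∑ j ∈ s,
      (1 / (m : ℝ) ^ 2 * Real.cos (2 * π * m * (x i - x j))) := by
    funext m
    rw [← sum_cos_sub]
    simp only [Finset.mul_sum]
    refine Finset.sum_congr rfl fun i _ => Finset.sum_congr rfl fun j _ => ?_
    rw [mul_sub]
  rw [hf]
  exact h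

variable {ι : Type*} (s : Finset ι) (t : ι → AddCircle (1 : ℝ))

/-- The energy is nonnegative. -/
theorem energy_nonneg : 0 ≤ ∑ i ∈ s, ∑ j ∈ s, bern (t i - t j) := by
  have hx : ∀ i, ∃ y : ℝ, (y : AddCircle (1 : ℝ)) = t i := fun i =>
    QuotientAddGroup.mk_surjective (t i)
  choose x hx using hx
  have h := energy_hasSum s x
  have h0 : 0 ≤ π ^ 2 * ∑ i ∈ s, ∑ j ∈ s, bern ((x i - x j : ℝ) : AddCircle (1 : ℝ)) :=
    h.nonneg fun m => by positivity
  have e : ∀ i j, ((x i - x j : ℝ) : AddCircle (1 : ℝ)) = t i - t j := fun i j => by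
    rw [AddCircle.coe_sub, hx, hx]
  simp only [e] at h0
  exact nonneg_of_mul_nonneg_right h0 (by positivity)

/-- If `N t_i = 0` for all `i` the energy is at least `M² / (6 N²)`. -/
theorem energy_ge {N : ℕ} (hN : 0 < N) (ht : ∀ i ∈ s, N • t i = 0) :
    (s.card : ℝ) ^ 2 / (6 * (N : ℝ) ^ 2) ≤ ∑ i ∈ s, ∑ j ∈ s, bern (t i - t j) := by
  have hx : ∀ i, ∃ y : ℝ, (y : AddCircle (1 : ℝ)) = t i := fun i =>
    QuotientAddGroup.mk_surjective (t i)
  choose x hx using hx
  have h := energy_hasSum s x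
  have e : ∀ i j, ((x i - x j : ℝ) : AddCircle (1 : ℝ)) = t i - t j := fun i j => by
    rw [AddCircle.coe_sub, hx, hx]
  simp only [e] at h
  have hN0 : (N : ℝ) ≠ 0 := by exact_mod_cast hN.ne'
  -- the multiples of `N`
  have hk : ∀ i ∈ s, ∃ k : ℤ, (N : ℝ) * x i = k := by
    intro i hi
    have h1 : (((N : ℝ) * x i : ℝ) : AddCircle (1 : ℝ)) = 0 := by
      have := ht i hi
      rw [← hx i, ← AddCircle.coe_nsmul] at this
      simpa [nsmul_eq_mul] using this
    obtain ⟨k, hk⟩ := (AddCircle.coe_eq_zero_iff (1 : ℝ)).mp h1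
    exact ⟨k, by rw [← hk]; simp⟩
  have hg : HasSum (fun l : ℕ => 1 / (l : ℝ) ^ 2 * ((s.card : ℝ) ^ 2 / (N : ℝ) ^ 2))
      (π ^ 2 / 6 * ((s.card : ℝ) ^ 2 / (N : ℝ) ^ 2)) := hasSum_zeta_two.mul_right _
  have hle := hasSum_le_inj (fun l : ℕ => N * l) (fun l l' hll => by
      exact Nat.eq_of_mul_eq_mul_left hN hll) (fun c _ => by positivity) (fun l => by
      have hc : ∀ i ∈ s, Real.cos (2 * π * ((N * l : ℕ) : ℝ) * x i) = 1 := by
        intro i hi
        obtain ⟨k, hk⟩ := hk i hi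
        have : 2 * π * ((N * l : ℕ) : ℝ) * x i = ((l * k : ℤ) : ℝ) * (2 * π) := by
          push_cast
          rw [← hk]; ring
        rw [this, Real.cos_int_mul_two_pi]
      have hs : ∀ i ∈ s, Real.sin (2 * π * ((N * l : ℕ) : ℝ) * x i) = 0 := by
        intro i hi
        obtain ⟨k, hk⟩ := hk i hi
        have : 2 * π * ((N * l : ℕ) : ℝ) * x i = ((2 * (l * k) : ℤ) : ℝ) * π := by
          push_cast
          rw [← hk]; ring
        rw [this, Real.sin_int_mul_pi]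
      rw [Finset.sum_congr rfl hc, Finset.sum_congr rfl hs]
      apply le_of_eq
      simp only [Finset.sum_const, nsmul_eq_mul, mul_one, mul_zero]
      push_cast
      rcases Nat.eq_zero_or_pos l with rfl | hl
      · simp
      · have : (l : ℝ) ≠ 0 := by exact_mod_cast hl.ne'
        field_simp
        ring) hg h
  have hpi : (0 : ℝ) < π ^ 2 := by positivity
  have : π ^ 2 * ((s.card : ℝ) ^ 2 / (6 * (N : ℝ) ^ 2)) ≤
      π ^ 2 * ∑ i ∈ s, ∑ j ∈ s, bern (t i - t j) := by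
    refine le_trans (le_of_eq ?_) hle
    field_simp
  exact le_of_mul_le_mul_left this hpi

/-- Points in one arc of length `1/12`. -/
theorem energy_cell (ht : ∀ i ∈ s, ∀ j ∈ s, ‖t i - t j‖ ≤ 1 / 12) :
    (s.card : ℝ) ^ 2 / 12 ≤ ∑ i ∈ s, ∑ j ∈ s, bern (t i - t j) := by
  have : ∀ i ∈ s, ∀ j ∈ s, (1 / 12 : ℝ) ≤ bern (t i - t j) := by
    intro i hi j hj
    have h1 := ht i hi j hj
    have h2 := norm_nonneg (t i - t j)
    rw [bern]; nlinarith
  calc (s.card : ℝ) ^ 2 / 12 = ∑ i ∈ s, ∑ j ∈ s, (1 / 12 : ℝ) := by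
        simp [Finset.sum_const]; ring
    _ ≤ _ := Finset.sum_le_sum fun i hi => Finset.sum_le_sum fun j hj => this i hi j hj

/-- Differences in a subgroup of index at most `4`. -/
theorem energy_subgroup {A : Type*} [AddCommGroup A] (E : AddSubgroup A) (hE : E.index ≤ 4)
    (hE0 : E.index ≠ 0) (s : Finset A) [DecidablePred (· ∈ E)] :
    (s.card : ℝ) ^ 2 / 4 ≤ ∑ i ∈ s, ∑ j ∈ s, if i - j ∈ E then (1 : ℝ) else 0 := by
  classical
  have hfin : Finite (A ⧸ E) := by
    apply Nat.finite_of_card_ne_zero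
    exact hE0
  have : Fintype (A ⧸ E) := Fintype.ofFinite _
  let f : (A ⧸ E) → ℝ := fun c =>
    ((Finset.filter (fun i : A => (QuotientAddGroup.mk i : A ⧸ E) = c) s).card : ℝ)
  have h1 : ∑ i ∈ s, ∑ j ∈ s, (if i - j ∈ E then (1 : ℝ) else 0) = ∑ c, f c ^ 2 := by
    have : ∀ i j : A, (if i - j ∈ E then (1 : ℝ) else 0)
        = ∑ c : A ⧸ E, (if (i : A ⧸ E) = c then 1 else 0) * (if (j : A ⧸ E) = c then (1 : ℝ) else 0) := by
      intro i j
      rw [Finset.sum_eq_single (i : A ⧸ E)]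
      · have : (i - j ∈ E) ↔ ((j : A ⧸ E) = (i : A ⧸ E)) := by
          rw [QuotientAddGroup.eq, neg_add_eq_sub]
        simp [this]
      · intro c _ hc
        simp [Ne.symm hc]
      · intro h; exact absurd (Finset.mem_univ _) h
    simp_rw [this]
    rw [Finset.sum_congr rfl fun i _ => Finset.sum_comm, Finset.sum_comm]
    refine Finset.sum_congr rfl fun c _ => ?_
    rw [sq, ← Finset.sum_mul_sum]
    have : f c = ∑ i ∈ s, if (i : A ⧸ E) = c then (1 : ℝ) else 0 := by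
      simp only [f]
      rw [Finset.sum_boole]
    rw [this]
  have h2 : (∑ c, f c) = s.card := by
    simp only [f]
    rw [← Nat.cast_sum]
    congr 1
    exact (Finset.card_eq_sum_card_fiberwise (s := s)
      (f := fun i : A => (QuotientAddGroup.mk i : A ⧸ E)) (t := Finset.univ)
      (fun _ _ => Finset.mem_coe.mpr (Finset.mem_univ _))).symm
  have h3 := sq_sum_le_card_mul_sum_sq (s := (Finset.univ : Finset (A ⧸ E))) (f := f)
  rw [h2] at h3
  have h4 : ((Finset.univ : Finset (A ⧸ E)).card : ℝ) ≤ 4 := by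
    have : (Finset.univ : Finset (A ⧸ E)).card = E.index := by
      rw [Finset.card_univ, AddSubgroup.index, Nat.card_eq_fintype_card]
    rw [this]; exact_mod_cast hE
  have h5 : 0 ≤ ∑ c, f c ^ 2 := Finset.sum_nonneg fun _ _ => sq_nonneg _
  rw [h1]
  nlinarith

end Pool.Agent.H24.LP
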