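import Mathlib

/-!
# Classes modulo `n` and torsion
-/

namespace Pool.Agent.H24.LP

open Finset Module

/-- If differences of elements of `S` which are of the form `n T + τ`, `τ` torsion, force `T` to be
good, torsion elements are good, and there are at most `B` good elements, then `S` has at most
`n ^ r * B ^ 2` elements, `r` a bound for the rank. -/
theorem class_count {A : Type*} [AddCommGroup A] (S : Finset A) (r n : ℕ) (hn : 0 < n)
    (hr : Module.rank ℤ A ≤ r) (good : A → Prop) (B : ℕ)
    (hB : ∀ s : Finset A, (∀ P ∈ s, good P) → s.card ≤ B)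
    (htors : ∀ (τ : A) (k : ℕ), k ≠ 0 → k • τ = 0 → good τ)
    (hgood : ∀ P ∈ S, ∀ Q ∈ S, ∀ (T τ : A) (k : ℕ), k ≠ 0 → k • τ = 0 →
      P - Q = n • T + τ → good T) : S.card ≤ n ^ r * B ^ 2 := by
  classical
  let M : Submodule ℤ A := Submodule.span ℤ (S : Set A)
  have hMf : Module.Finite ℤ M := Module.Finite.span_of_finite ℤ (Finset.finite_toSet S)
  let F := M ⧸ Submodule.torsion ℤ M
  have hTF : Module.IsTorsionFree ℤ F := inferInstance
  have hFf : Module.Finite ℤ F := inferInstance
  have hFree : Module.Free ℤ F := inferInstance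
  let bs := Module.finBasis ℤ F
  have hk : finrank ℤ F ≤ r := by
    refine Module.finrank_le_of_rank_le ?_
    exact (rank_quotient_le _).trans ((Submodule.rank_le M).trans hr)
  have hSM : ∀ P : S, (P : A) ∈ M := fun P => Submodule.subset_span P.2
  let m : S → M := fun P => ⟨P, hSM P⟩
  let cls : S → (Fin (finrank ℤ F) → ZMod n) := fun P i =>
    ((bs.repr (Submodule.Quotient.mk (m P)) i : ℤ) : ZMod n)
  have hne : NeZero n := ⟨hn.ne'⟩
  -- elements in one class
  have hcls : ∀ P Q : S, cls P = cls Q → ∃ (T τ : A) (k : ℕ), k ≠ 0 ∧ k • τ = 0 ∧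
      (P : A) - Q = n • T + τ := by
    intro P Q hPQ
    have h1 : ∀ i, ∃ d : ℤ, bs.repr (Submodule.Quotient.mk (m P)) i
        - bs.repr (Submodule.Quotient.mk (m Q)) i = n * d := by
      intro i
      have h2 : ((bs.repr (Submodule.Quotient.mk (m P)) i : ℤ) : ZMod n)
          = ((bs.repr (Submodule.Quotient.mk (m Q)) i : ℤ) : ZMod n) := congrFun hPQ i
      rw [ZMod.intCast_eq_intCast_iff_dvd_sub] at h2
      obtain ⟨d, hd⟩ := h2
      exact ⟨-d, by linarith⟩
    choose d hd using h1
    obtain ⟨T, hT⟩ := Submodule.Quotient.mk_surjective (Submodule.torsion ℤ M)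
      (∑ i, d i • bs i)
    have h3 : (Submodule.Quotient.mk (m P - m Q - (n : ℤ) • T) : F) = 0 := by
      rw [Submodule.Quotient.mk_sub, Submodule.Quotient.mk_sub, Submodule.Quotient.mk_smul, hT]
      apply bs.repr.injective
      ext i
      simp only [map_sub, map_smul, Finsupp.sub_apply, Finsupp.smul_apply, map_sum, map_zero,
        Finsupp.zero_apply, Finsupp.finsetSum_apply, Basis.repr_self, smul_eq_mul]
      have h4 := hd i
      have h5 : ∑ x, d x * (Finsupp.single x (1 : ℤ)) i = d i := by
        rw [Finset.sum_eq_single i]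
        · simp
        · intro j _ hj
          simp [Finsupp.single_apply, hj]
        · intro h; exact absurd (Finset.mem_univ _) h
      rw [h5]
      linarith
    rw [Submodule.Quotient.mk_eq_zero, Submodule.mem_torsion_iff] at h3
    obtain ⟨k, hk⟩ := h3
    have hk0 : (k : ℤ) ≠ 0 := nonZeroDivisors.ne_zero k.2
    refine ⟨T, ((m P - m Q - (n : ℤ) • T : M) : A), (k : ℤ).natAbs, Int.natAbs_ne_zero.mpr hk0, ?_, ?_⟩
    · have h6 : (k : ℤ) • ((m P - m Q - (n : ℤ) • T : M) : A) = 0 := by
        have := congrArg (fun z : M => (z : A)) hk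
        simpa [Submonoid.smul_def] using this
      rcases Int.natAbs_eq (k : ℤ) with h7 | h7
      · rw [h7, natCast_zsmul] at h6
        exact h6
      · rw [h7, neg_smul, natCast_zsmul, neg_eq_zero] at h6
        exact h6
    · push_cast
      simp only [natCast_zsmul]
      abel_nf
      simp [m]
  -- the count in one class
  have hfib : ∀ z : (Fin (finrank ℤ F) → ZMod n),
      (Finset.univ.filter fun P : S => cls P = z).card ≤ B ^ 2 := by
    intro z
    rcases (Finset.univ.filter fun P : S => cls P = z).eq_empty_or_nonempty with h | ⟨Q, hQ⟩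
    · rw [h]; simp
    rw [Finset.mem_filter] at hQ
    have hex : ∀ P : S, ∃ (T τ : A) (k : ℕ), cls P = z → (k ≠ 0 ∧ k • τ = 0 ∧
        (P : A) - Q = n • T + τ) := by
      intro P
      by_cases hP : cls P = z
      · obtain ⟨T, τ, k, h1⟩ := hcls P Q (hP.trans hQ.2.symm)
        exact ⟨T, τ, k, fun _ => h1⟩
      · exact ⟨0, 0, 0, fun h => absurd h hP⟩
    choose T τ k hTτ using hex
    let s : Finset S := Finset.univ.filter fun P : S => cls P = z
    have hinj : Set.InjOn (fun P : S => (T P, τ P)) (s : Set S) := by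
      intro P hP P' hP' hPP
      have h1 := (hTτ P (Finset.mem_filter.mp hP).2).2.2
      have h2 := (hTτ P' (Finset.mem_filter.mp hP').2).2.2
      have h3 : T P = T P' := (Prod.mk.inj hPP).1
      have h4 : τ P = τ P' := (Prod.mk.inj hPP).2
      rw [h3, h4, ← h2] at h1
      exact Subtype.ext (sub_left_injective h1)
    have hcard : s.card ≤ ((s.image T) ×ˢ (s.image τ)).card := by
      refine Finset.card_le_card_of_injOn (fun P : S => (T P, τ P)) (fun P hP => ?_) hinj
      simp only [Finset.coe_product, Set.mem_prod, Finset.mem_coe]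
      exact ⟨Finset.mem_image_of_mem _ hP, Finset.mem_image_of_mem _ hP⟩
    have hT : (s.image T).card ≤ B := by
      refine hB _ fun U hU => ?_
      obtain ⟨P, hP, rfl⟩ := Finset.mem_image.mp hU
      have h1 := hTτ P (Finset.mem_filter.mp hP).2
      exact hgood P P.2 Q Q.2 (T P) (τ P) (k P) h1.1 h1.2.1 h1.2.2
    have hτ : (s.image τ).card ≤ B := by
      refine hB _ fun U hU => ?_
      obtain ⟨P, hP, rfl⟩ := Finset.mem_image.mp hU
      have h1 := hTτ P (Finset.mem_filter.mp hP).2
      exact htors (τ P) (k P) h1.1 h1.2.1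
    calc s.card ≤ (s.image T).card * (s.image τ).card := by rwa [Finset.card_product] at hcard
      _ ≤ B * B := Nat.mul_le_mul hT hτ
      _ = B ^ 2 := (sq B).symm
  -- the total
  have h1 : (Finset.univ : Finset S).card ≤ B ^ 2 * (Finset.univ : Finset (Fin (finrank ℤ F) → ZMod n)).card :=
    Finset.card_le_mul_card_image_of_maps_to (f := cls) (fun _ _ => Finset.mem_univ _) _
      fun z _ => hfib z
  rw [Finset.card_univ, Fintype.card_coe, Finset.card_univ, Fintype.card_fun, ZMod.card,
    Fintype.card_fin] at h1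
  calc S.card ≤ B ^ 2 * n ^ finrank ℤ F := h1
    _ ≤ B ^ 2 * n ^ r := by gcongr
    _ = n ^ r * B ^ 2 := mul_comm _ _

end Pool.Agent.H24.LP
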