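import Pool.Agent.H24.LP.Bern

/-!
# Integral points and the rank: definitions
-/

namespace Pool.Agent.H24.LP

/-- The curve `y² = x³ + a x + b` over `ℚ`. -/
def curve (a b : ℤ) : WeierstrassCurve.Affine ℚ where
  a₁ := 0
  a₂ := 0
  a₃ := 0
  a₄ := a
  a₆ := b

/-- `D = 4a³ + 27b²`. -/
def D (a b : ℤ) : ℤ := 4 * a ^ 3 + 27 * b ^ 2

/-- The `j`-invariant. -/
def jInv (a b : ℤ) : ℚ := 1728 * (4 * (a : ℚ) ^ 3 / (4 * (a : ℚ) ^ 3 + 27 * (b : ℚ) ^ 2))

/-- `D ≠ 0` and there is no prime `p` with `p⁴ ∣ a` and `p⁶ ∣ b`. -/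
structure QuasiMinimal (a b : ℤ) : Prop where
  ne : D a b ≠ 0
  min : ∀ p : ℕ, p.Prime → ¬ ((p : ℤ) ^ 4 ∣ a ∧ (p : ℤ) ^ 6 ∣ b)

/-- `E(ℤ)`: the pairs of integers `(x, y)` with `y² = x³ + a x + b`. -/
def integralPoints (a b : ℤ) : Set (ℤ × ℤ) := {z | z.2 ^ 2 = z.1 ^ 3 + a * z.1 + b}

/-- `L = log max(2, |a|^{1/2}, |b|^{1/3})`. -/
noncomputable def L (a b : ℤ) : ℝ :=
  max (Real.log 2) (max (Real.log |(a : ℝ)| / 2) (Real.log |(b : ℝ)| / 3))

/-- `n_p`: the exponent of `p` in the denominator of `j`. -/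
def np (a b : ℤ) (p : ℕ) : ℕ := (jInv a b).den.factorization p

/-- The primes dividing the denominator of `j`. -/
def poles (a b : ℤ) : Finset ℕ := (jInv a b).den.primeFactors

/-- The primes `p ≥ 5` which divide `D` and not the denominator of `j`. -/
def addPrimes (a b : ℤ) : Finset ℕ :=
  (D a b).natAbs.primeFactors.filter fun p => 5 ≤ p ∧ ¬ p ∣ (jInv a b).den

/-- `log⁺ |j|`. -/
noncomputable def wInf (a b : ℤ) : ℝ := max 0 (Real.log |(jInv a b : ℝ)|)

/-- `G = 1 + log⁺ |j| + max_p n_p log p + ∑_{p ∣ den j} (log p)/n_p + ∑_{p ≥ 5, p ∣ D, p ∤ den j} log p`. -/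
noncomputable def G (a b : ℤ) : ℝ :=
  1 + wInf a b + (⨆ p : ℕ, (np a b p : ℝ) * Real.log p)
    + ∑ p ∈ poles a b, Real.log p / np a b p + ∑ p ∈ addPrimes a b, Real.log p

/-- A point of `E(ℚ)` with integral coordinates. -/
def IsIntegral {a b : ℤ} (P : (curve a b).Point) : Prop :=
  ∃ (x y : ℤ) (h : (curve a b).Nonsingular (x : ℚ) (y : ℚ)), P = .some (x : ℚ) (y : ℚ) h

open Classical in
/-- The height facts about `y² = x³ + a x + b`, with a constant `c`. -/
structure HeightData (c : ℝ) (a b : ℤ) where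
  /-- the canonical height -/
  h : (curve a b).Point → ℝ
  nonneg : ∀ P, 0 ≤ h P
  par : ∀ P Q, h (P + Q) + h (P - Q) = 2 * h P + 2 * h Q
  /-- difference of naive and canonical height -/
  naive : ∀ (x y : ℤ) (hxy : (curve a b).Nonsingular (x : ℚ) (y : ℚ)),
    |h (.some (x : ℚ) (y : ℚ) hxy) - Real.log (max 1 |(x : ℝ)|) / 2| ≤ c * L a b
  /-- Silverman's bound for the number of large integral points -/
  large : ∀ r : ℕ, Module.rank ℤ (curve a b).Point ≤ r →
    {P : (curve a b).Point | IsIntegral P ∧ c * L a b < h P}.Finite ∧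
    ({P : (curve a b).Point | IsIntegral P ∧ c * L a b < h P}.ncard : ℝ) ≤ c ^ (1 + r)
  /-- the component map at the archimedean place -/
  tInf : (curve a b).Point →+ AddCircle (1 : ℝ)
  /-- the component map at `p` -/
  t : ℕ → (curve a b).Point →+ AddCircle (1 : ℝ)
  t_tors : ∀ p ∈ poles a b, ∀ P, (2 * np a b p) • t p P = 0
  /-- the points of nonsingular reduction at `p` -/
  E0 : ℕ → AddSubgroup (curve a b).Point
  E0_index : ∀ p ∈ addPrimes a b, (E0 p).index ≠ 0 ∧ (E0 p).index ≤ 4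
  /-- decomposition in local heights -/
  lower : ∀ P, P ≠ 0 →
    bern (tInf P) / 2 * wInf a b
      + ∑ p ∈ poles a b, bern (t p P) / 2 * (np a b p * Real.log p)
      + ∑ p ∈ addPrimes a b, (if P ∈ E0 p then (1 : ℝ) else 0) *
          ((D a b).natAbs.factorization p * Real.log p / 12)
      - c ≤ h P

end Pool.Agent.H24.LP
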