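import Pool.Agent.H24.LP.Small2

/-!
# Comparison of `L`, `D` and `G`
-/

namespace Pool.Agent.H24.LP

open Finset

variable {a b : ℤ}

lemma log_two_le_L (a b : ℤ) : Real.log 2 ≤ L a b := le_max_left _ _

lemma half_le_L (a b : ℤ) : 1 / 2 ≤ L a b :=
  le_trans (by linarith [Real.log_two_gt_d9]) (log_two_le_L a b)

lemma abs_a_le (a b : ℤ) : |(a : ℝ)| ≤ Real.exp (2 * L a b) := by
  have h : Real.log |(a : ℝ)| ≤ 2 * L a b := by
    have : Real.log |(a : ℝ)| / 2 ≤ L a b := le_trans (le_max_left _ _) (le_max_right _ _)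
    linarith
  rcases eq_or_ne a 0 with rfl | h0
  · simp; positivity
  · have : 0 < |(a : ℝ)| := abs_pos.mpr (by exact_mod_cast h0)
    rw [← Real.log_le_iff_le_exp this]
    exact h

lemma abs_b_le (a b : ℤ) : |(b : ℝ)| ≤ Real.exp (3 * L a b) := by
  have h : Real.log |(b : ℝ)| ≤ 3 * L a b := by
    have : Real.log |(b : ℝ)| / 3 ≤ L a b := le_trans (le_max_right _ _) (le_max_right _ _)
    linarith
  rcases eq_or_ne b 0 with rfl | h0
  · simp; positivity
  · have : 0 < |(b : ℝ)| := abs_pos.mpr (by exact_mod_cast h0)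
    rw [← Real.log_le_iff_le_exp this]
    exact h

lemma abs_D_le (a b : ℤ) : |((D a b : ℤ) : ℝ)| ≤ 31 * Real.exp (6 * L a b) := by
  have h1 := abs_a_le a b
  have h2 := abs_b_le a b
  have h3 : |(a : ℝ)| ^ 3 ≤ Real.exp (6 * L a b) := by
    calc |(a : ℝ)| ^ 3 ≤ Real.exp (2 * L a b) ^ 3 := by gcongr
      _ = Real.exp (6 * L a b) := by rw [← Real.exp_nat_mul]; congr 1; push_cast; ring
  have h4 : |(b : ℝ)| ^ 2 ≤ Real.exp (6 * L a b) := by
    calc |(b : ℝ)| ^ 2 ≤ Real.exp (3 * L a b) ^ 2 := by gcongr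
      _ = Real.exp (6 * L a b) := by rw [← Real.exp_nat_mul]; congr 1; push_cast; ring
  calc |((D a b : ℤ) : ℝ)| = |4 * (a : ℝ) ^ 3 + 27 * (b : ℝ) ^ 2| := by rw [D]; push_cast; rfl
    _ ≤ |4 * (a : ℝ) ^ 3| + |27 * (b : ℝ) ^ 2| := abs_add_le _ _
    _ = 4 * |(a : ℝ)| ^ 3 + 27 * |(b : ℝ)| ^ 2 := by
        rw [abs_mul, abs_mul, abs_pow, abs_pow]; norm_num
    _ ≤ _ := by linarith

lemma one_le_abs_D (h : D a b ≠ 0) : 1 ≤ |((D a b : ℤ) : ℝ)| := by
  have := Int.one_le_abs h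
  exact_mod_cast this

lemma log_D_le (h : D a b ≠ 0) : Real.log |((D a b : ℤ) : ℝ)| ≤ 11 * L a b := by
  have h1 := abs_D_le a b
  have h2 := one_le_abs_D h
  have h3 : Real.log |((D a b : ℤ) : ℝ)| ≤ Real.log (31 * Real.exp (6 * L a b)) :=
    Real.log_le_log (by linarith) h1
  rw [Real.log_mul (by norm_num) (Real.exp_pos _).ne', Real.log_exp] at h3
  have h4 : Real.log 31 ≤ 5 * Real.log 2 := by
    have : Real.log 31 ≤ Real.log (2 ^ 5) := Real.log_le_log (by norm_num) (by norm_num)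
    rwa [Real.log_pow] at this
  have h5 := log_two_le_L a b
  linarith

lemma jInv_real (h : D a b ≠ 0) :
    ((jInv a b : ℚ) : ℝ) = 6912 * (a : ℝ) ^ 3 / ((D a b : ℤ) : ℝ) := by
  rw [jInv, D]
  push_cast
  ring

lemma abs_j (h : D a b ≠ 0) :
    |((jInv a b : ℚ) : ℝ)| * |((D a b : ℤ) : ℝ)| = 6912 * |(a : ℝ)| ^ 3 := by
  have h0 : ((D a b : ℤ) : ℝ) ≠ 0 := by exact_mod_cast h
  rw [jInv_real h, ← abs_mul, div_mul_cancel₀ _ h0, abs_mul, abs_pow]
  norm_num

lemma wInf_le (h : D a b ≠ 0) : wInf a b ≤ 19 * L a b := by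
  have hL := L_pos a b
  refine max_le (by positivity) ?_
  rcases eq_or_ne (jInv a b) 0 with h0 | h0
  · rw [h0]; simp; positivity
  have h1 : 0 < |((jInv a b : ℚ) : ℝ)| := abs_pos.mpr (by exact_mod_cast h0)
  have h2 := one_le_abs_D h
  have h3 : |((jInv a b : ℚ) : ℝ)| ≤ 6912 * |(a : ℝ)| ^ 3 := by
    rw [← abs_j h]; nlinarith
  have h4 := abs_a_le a b
  have h5 : |(a : ℝ)| ^ 3 ≤ Real.exp (6 * L a b) := by
    calc |(a : ℝ)| ^ 3 ≤ Real.exp (2 * L a b) ^ 3 := by gcongr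
      _ = Real.exp (6 * L a b) := by rw [← Real.exp_nat_mul]; congr 1; push_cast; ring
  have h6 : Real.log |((jInv a b : ℚ) : ℝ)| ≤ Real.log (6912 * Real.exp (6 * L a b)) :=
    Real.log_le_log h1 (by linarith)
  rw [Real.log_mul (by norm_num) (Real.exp_pos _).ne', Real.log_exp] at h6
  have h7 : Real.log 6912 ≤ 13 * Real.log 2 := by
    have : Real.log 6912 ≤ Real.log (2 ^ 13) := Real.log_le_log (by norm_num) (by norm_num)
    rwa [Real.log_pow] at this
  have h8 := log_two_le_L a b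
  linarith

lemma jInv_eq_divInt (a b : ℤ) : jInv a b = Rat.divInt (6912 * a ^ 3) (D a b) := by
  rw [Rat.divInt_eq_div, jInv, D]
  push_cast
  ring

lemma den_dvd (a b : ℤ) : ((jInv a b).den : ℤ) ∣ D a b := by
  rw [jInv_eq_divInt]
  exact Rat.den_dvd _ _

lemma num_mul (h : D a b ≠ 0) : (jInv a b).num * D a b = 6912 * a ^ 3 * (jInv a b).den := by
  have h1 : (jInv a b) * (D a b : ℚ) = 6912 * (a : ℚ) ^ 3 := by
    have h0 : ((D a b : ℤ) : ℚ) ≠ 0 := by exact_mod_cast h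
    rw [jInv_eq_divInt, Rat.divInt_eq_div, div_mul_cancel₀ _ h0]
    push_cast; ring
  have h2 : ((jInv a b).num : ℚ) = jInv a b * ((jInv a b).den : ℚ) :=
    (Rat.mul_den_eq_num _).symm
  have h3 : (((jInv a b).num * D a b : ℤ) : ℚ) = ((6912 * a ^ 3 * (jInv a b).den : ℤ) : ℚ) := by
    push_cast
    rw [h2]
    calc jInv a b * ((jInv a b).den : ℚ) * (D a b : ℚ)
        = (jInv a b * (D a b : ℚ)) * ((jInv a b).den : ℚ) := by ring
      _ = _ := by rw [h1]
  exact_mod_cast h3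

lemma log_eq_sum (n : ℕ) :
    Real.log n = ∑ p ∈ n.primeFactors, (n.factorization p : ℝ) * Real.log p := by
  rw [Real.log_nat_eq_sum_factorization]
  rfl

lemma sum_poles (a b : ℤ) :
    ∑ p ∈ poles a b, (np a b p : ℝ) * Real.log p = Real.log ((jInv a b).den : ℝ) := by
  rw [log_eq_sum]; rfl

lemma log_natAbs (h : D a b ≠ 0) :
    Real.log (((D a b).natAbs : ℕ) : ℝ) = Real.log |((D a b : ℤ) : ℝ)| := by
  rw [Nat.cast_natAbs]
  push_cast
  rfl

lemma sum_poles_le (h : D a b ≠ 0) :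
    ∑ p ∈ poles a b, (np a b p : ℝ) * Real.log p ≤ 11 * L a b := by
  rw [sum_poles]
  refine le_trans ?_ (log_D_le h)
  rw [← log_natAbs h]
  have h1 : (jInv a b).den ∣ (D a b).natAbs := Int.natCast_dvd.mp (den_dvd a b)
  have h2 : (jInv a b).den ≤ (D a b).natAbs := Nat.le_of_dvd (Int.natAbs_pos.mpr h) h1
  exact Real.log_le_log (by exact_mod_cast (jInv a b).pos) (by exact_mod_cast h2)

lemma sum_add_le (h : D a b ≠ 0) :
    ∑ p ∈ addPrimes a b, ((D a b).natAbs.factorization p : ℝ) * Real.log p ≤ 11 * L a b := by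
  refine le_trans ?_ (log_D_le h)
  rw [← log_natAbs h, log_eq_sum]
  exact Finset.sum_le_sum_of_subset_of_nonneg (Finset.filter_subset _ _)
    fun p _ _ => mul_nonneg (Nat.cast_nonneg _) (Real.log_natCast_nonneg p)

lemma sum_add_log_le (a b : ℤ) : ∑ p ∈ addPrimes a b, Real.log p ≤
    ∑ p ∈ addPrimes a b, ((D a b).natAbs.factorization p : ℝ) * Real.log p := by
  refine Finset.sum_le_sum fun p hp => ?_
  have h := Nat.mem_primeFactors.mp (Finset.mem_filter.mp hp).1
  have hp1 : 1 ≤ (D a b).natAbs.factorization p := (h.1.dvd_iff_one_le_factorization h.2.2).mp h.2.1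
  have hp2 : (1 : ℝ) ≤ ((D a b).natAbs.factorization p : ℝ) := by exact_mod_cast hp1
  have hl := Real.log_natCast_nonneg p
  nlinarith

theorem K_zero_le {c : ℝ} (X : HeightData c a b) (h : D a b ≠ 0) : X.K 0 ≤ 4 * L a b := by
  rw [X.K_zero]
  have h1 := wInf_le h
  have h2 := sum_poles_le h
  have h3 := sum_add_le h
  have h4 := L_pos a b
  linarith

lemma max_le_sum (h : D a b ≠ 0) :
    (⨆ p : ℕ, (np a b p : ℝ) * Real.log p) ≤ 11 * L a b := by
  have hL := L_pos a b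
  refine ciSup_le fun p => ?_
  by_cases hp : p ∈ poles a b
  · refine le_trans ?_ (sum_poles_le h)
    exact Finset.single_le_sum (f := fun p : ℕ => (np a b p : ℝ) * Real.log p)
      (fun p _ => mul_nonneg (Nat.cast_nonneg _) (Real.log_natCast_nonneg p)) hp
  · have : np a b p = 0 := by
      by_contra hne
      apply hp
      rw [poles, ← Nat.support_factorization]
      exact Finsupp.mem_support_iff.mpr hne
    rw [this]; simp; positivity

theorem G_le (h : D a b ≠ 0) : G a b ≤ 54 * L a b := by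
  have h1 := wInf_le h
  have h2 := max_le_sum h
  have h3 : ∑ p ∈ poles a b, Real.log p / np a b p ≤ 11 * L a b := by
    refine le_trans (Finset.sum_le_sum fun p hp => ?_) (sum_poles_le h)
    have hn : (1 : ℝ) ≤ np a b p := by exact_mod_cast HeightData.np_pos hp
    have hl := Real.log_natCast_nonneg p
    rw [div_le_iff₀ (by linarith)]
    have h5 : (1 : ℝ) ≤ (np a b p : ℝ) * np a b p := by nlinarith
    have h6 := mul_le_mul_of_nonneg_right h5 hl
    linarith
  have h4 := (sum_add_log_le a b).trans (sum_add_le h)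
  have h5 := half_le_L a b
  rw [G]
  linarith

end Pool.Agent.H24.LP
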