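import Pool.Agent.H24.LP.NT

/-!
# The lower bound for `G`
-/

namespace Pool.Agent.H24.LP

open Finset

variable {a b : ℤ}

lemma six_L_le (h : D a b ≠ 0) :
    6 * L a b ≤ 6 * Real.log 2 + wInf a b + Real.log |((D a b : ℤ) : ℝ)| := by
  have hw := HeightData.wInf_nonneg (a := a) (b := b)
  have hD1 := one_le_abs_D h
  have hD0 : 0 ≤ Real.log |((D a b : ℤ) : ℝ)| := Real.log_nonneg hD1
  have hl2 : 0 ≤ Real.log 2 := Real.log_nonneg (by norm_num)
  have hj := abs_j h
  have hwj : Real.log |((jInv a b : ℚ) : ℝ)| ≤ wInf a b := le_max_right _ _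
  have key : L a b ≤ (6 * Real.log 2 + wInf a b + Real.log |((D a b : ℤ) : ℝ)|) / 6 := by
    refine max_le (by linarith) (max_le ?_ ?_)
    · rcases eq_or_ne a 0 with rfl | h0
      · simp; positivity
      have ha : 0 < |(a : ℝ)| := abs_pos.mpr (by exact_mod_cast h0)
      have hj0 : 0 < |((jInv a b : ℚ) : ℝ)| := by
        by_contra hne
        have : |((jInv a b : ℚ) : ℝ)| = 0 := le_antisymm (not_lt.mp hne) (abs_nonneg _)
        rw [this, zero_mul] at hj
        have : 0 < 6912 * |(a : ℝ)| ^ 3 := by positivity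
        linarith
      have h1 := congrArg Real.log hj
      rw [Real.log_mul hj0.ne' (by linarith), Real.log_mul (by norm_num) (by positivity),
        Real.log_pow] at h1
      have h2 : 0 ≤ Real.log 6912 := Real.log_nonneg (by norm_num)
      push_cast at h1
      linarith
    · rcases eq_or_ne b 0 with rfl | h0
      · simp; positivity
      have hb : 0 < |(b : ℝ)| := abs_pos.mpr (by exact_mod_cast h0)
      have h1 : 27 * |(b : ℝ)| ^ 2 ≤ |((D a b : ℤ) : ℝ)| + 4 * |(a : ℝ)| ^ 3 := by
        have e : 27 * (b : ℝ) ^ 2 = ((D a b : ℤ) : ℝ) - 4 * (a : ℝ) ^ 3 := by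
          rw [D]; push_cast; ring
        calc 27 * |(b : ℝ)| ^ 2 = |27 * (b : ℝ) ^ 2| := by
              rw [abs_mul, abs_pow]; norm_num
          _ = |((D a b : ℤ) : ℝ) - 4 * (a : ℝ) ^ 3| := by rw [e]
          _ ≤ |((D a b : ℤ) : ℝ)| + |4 * (a : ℝ) ^ 3| := abs_sub _ _
          _ = _ := by rw [abs_mul, abs_pow]; norm_num
      have h2 : |((jInv a b : ℚ) : ℝ)| ≤ Real.exp (wInf a b) := by
        rcases eq_or_ne (jInv a b) 0 with h3 | h3
        · rw [h3]; simp; positivity
        · rw [← Real.log_le_iff_le_exp (abs_pos.mpr (by exact_mod_cast h3))]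
          exact hwj
      have h3 : 1 ≤ Real.exp (wInf a b) := Real.one_le_exp hw
      have h4 : |(b : ℝ)| ^ 2 ≤ Real.exp (wInf a b) * |((D a b : ℤ) : ℝ)| := by nlinarith
      have h5 : Real.log (|(b : ℝ)| ^ 2) ≤ Real.log (Real.exp (wInf a b) * |((D a b : ℤ) : ℝ)|) :=
        Real.log_le_log (by positivity) h4
      rw [Real.log_pow, Real.log_mul (Real.exp_pos _).ne' (by linarith), Real.log_exp] at h5
      push_cast at h5
      linarith
  linarith

lemma not_pow_dvd {p : ℕ} (hp : p.Prime) : (6912 : ℕ).factorization p ≤ 8 := by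
  by_contra h
  push Not at h
  have h1 : p ^ 9 ∣ 6912 := (hp.pow_dvd_iff_le_factorization (by norm_num)).mpr h
  have h2 : p ^ 9 ≤ 6912 := Nat.le_of_dvd (by norm_num) h1
  have h3 : p < 3 := by
    by_contra h4
    push Not at h4
    have : 3 ^ 9 ≤ p ^ 9 := Nat.pow_le_pow_left h4 9
    norm_num at this
    omega
  have h4 := hp.two_le
  interval_cases p
  norm_num at h1

lemma fact27_le {p : ℕ} (hp : p.Prime) : (27 : ℕ).factorization p ≤ 3 := by
  by_contra h
  push Not at h
  have h1 : p ^ 4 ∣ 27 := (hp.pow_dvd_iff_le_factorization (by norm_num)).mpr h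
  have h2 : p ^ 4 ≤ 27 := Nat.le_of_dvd (by norm_num) h1
  have h3 : p < 3 := by
    by_contra h4
    push Not at h4
    have : 3 ^ 4 ≤ p ^ 4 := Nat.pow_le_pow_left h4 4
    norm_num at this
    omega
  have h4 := hp.two_le
  interval_cases p
  norm_num at h1

/-- `v_p(D) ≤ n_p + 20` for a quasi-minimal equation. -/
theorem fact_D_le (hq : QuasiMinimal a b) {p : ℕ} (hp : p.Prime) :
    (D a b).natAbs.factorization p ≤ np a b p + 20 := by
  by_contra hcon
  push Not at hcon
  have hD := hq.ne
  have hDn : (D a b).natAbs ≠ 0 := Int.natAbs_ne_zero.mpr hD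
  -- `p^21` divides `6912 a^3`
  have h1 : ((jInv a b).num.natAbs * (D a b).natAbs : ℕ)
      = 6912 * a.natAbs ^ 3 * (jInv a b).den := by
    have := congrArg Int.natAbs (num_mul hD)
    simpa [Int.natAbs_mul, Int.natAbs_pow] using this
  have h2 : (p : ℤ) ^ 5 ∣ a := by
    rcases eq_or_ne a 0 with rfl | ha
    · exact dvd_zero _
    have ha' : a.natAbs ≠ 0 := Int.natAbs_ne_zero.mpr ha
    have hden : (jInv a b).den ≠ 0 := (jInv a b).den_nz
    have hnum : (jInv a b).num.natAbs ≠ 0 := by
      intro h0
      rw [h0, zero_mul] at h1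
      have : 6912 * a.natAbs ^ 3 * (jInv a b).den ≠ 0 := by positivity
      exact this h1.symm
    have h3 := congrArg (fun n => n.factorization p) h1
    rw [Nat.factorization_mul hnum hDn, Nat.factorization_mul (by positivity) hden,
      Nat.factorization_mul (by norm_num) (by positivity), Nat.factorization_pow] at h3
    simp only [Finsupp.add_apply, Finsupp.smul_apply, smul_eq_mul] at h3
    have h4 := not_pow_dvd hp
    have h5 : (jInv a b).den.factorization p = np a b p := rfl
    rw [h5] at h3
    have h6 : 5 ≤ a.natAbs.factorization p := by omega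
    have h7 : p ^ 5 ∣ a.natAbs := (hp.pow_dvd_iff_le_factorization ha').mpr h6
    have h8 : ((p ^ 5 : ℕ) : ℤ) ∣ a := Int.natCast_dvd.mpr h7
    exact_mod_cast h8
  -- `p^15` divides `27 b^2`
  have h3 : (p : ℤ) ^ 15 ∣ 27 * b ^ 2 := by
    have e : 27 * b ^ 2 = D a b - 4 * a ^ 3 := by rw [D]; ring
    rw [e]
    refine dvd_sub ?_ ?_
    · have h4 : p ^ 15 ∣ (D a b).natAbs :=
        (hp.pow_dvd_iff_le_factorization hDn).mpr (by omega)
      have h5 : ((p ^ 15 : ℕ) : ℤ) ∣ D a b := Int.natCast_dvd.mpr h4
      exact_mod_cast h5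
    · have : ((p : ℤ) ^ 5) ^ 3 ∣ a ^ 3 := pow_dvd_pow_of_dvd h2 3
      rw [← pow_mul] at this
      exact Dvd.dvd.mul_left this 4
  have h4 : (p : ℤ) ^ 6 ∣ b := by
    rcases eq_or_ne b 0 with rfl | hb
    · exact dvd_zero _
    have hb' : b.natAbs ≠ 0 := Int.natAbs_ne_zero.mpr hb
    have h5 : p ^ 15 ∣ 27 * b.natAbs ^ 2 := by
      have : ((p ^ 15 : ℕ) : ℤ) ∣ 27 * b ^ 2 := by exact_mod_cast h3
      have := Int.natCast_dvd.mp this
      simpa [Int.natAbs_mul, Int.natAbs_pow] using this
    have h6 := (hp.pow_dvd_iff_le_factorization (by positivity)).mp h5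
    rw [Nat.factorization_mul (by norm_num) (by positivity), Nat.factorization_pow] at h6
    simp only [Finsupp.add_apply, Finsupp.smul_apply, smul_eq_mul] at h6
    have h7 := fact27_le hp
    have h8 : 6 ≤ b.natAbs.factorization p := by omega
    have h9 : p ^ 6 ∣ b.natAbs := (hp.pow_dvd_iff_le_factorization hb').mpr h8
    have h10 : ((p ^ 6 : ℕ) : ℤ) ∣ b := Int.natCast_dvd.mpr h9
    exact_mod_cast h10
  exact hq.min p hp ⟨dvd_trans (pow_dvd_pow _ (by norm_num)) h2, h4⟩

lemma sum_poles_cube (a b : ℤ) :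
    ∑ p ∈ poles a b, (np a b p : ℝ) * Real.log p ≤ 4 * G a b ^ 3 := by
  have hG1 := one_le_G a b
  have hw := HeightData.wInf_nonneg (a := a) (b := b)
  have hm := max_nonneg a b
  have ha : 0 ≤ ∑ p ∈ addPrimes a b, Real.log p :=
    Finset.sum_nonneg fun p _ => Real.log_natCast_nonneg p
  have hs0 : 0 ≤ ∑ p ∈ poles a b, Real.log p / np a b p :=
    Finset.sum_nonneg fun p _ => div_nonneg (Real.log_natCast_nonneg p) (Nat.cast_nonneg _)
  have hmax : (⨆ p : ℕ, (np a b p : ℝ) * Real.log p) ≤ G a b := by rw [G]; linarith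
  have hsum : ∑ p ∈ poles a b, Real.log p / np a b p ≤ G a b := by rw [G]; linarith
  have h1 : ∀ p ∈ poles a b, (np a b p : ℝ) * Real.log p ≤ G a b := fun p _ =>
    (le_max a b p).trans hmax
  have hlog : ∀ p ∈ poles a b, (1 / 2 : ℝ) ≤ Real.log p := by
    intro p hp
    have h2 : 2 ≤ p := (Nat.prime_of_mem_primeFactors hp).two_le
    have h3 : Real.log 2 ≤ Real.log p := Real.log_le_log (by norm_num) (by exact_mod_cast h2)
    linarith [Real.log_two_gt_d9]
  have h2 : ∀ p ∈ poles a b, (1 : ℝ) ≤ Real.log p / np a b p * (4 * G a b) := by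
    intro p hp
    have hn : (1 : ℝ) ≤ np a b p := by exact_mod_cast HeightData.np_pos hp
    have hl := hlog p hp
    have h3 := h1 p hp
    have h4 : (np a b p : ℝ) ≤ Real.log p * (4 * G a b) := by nlinarith
    rw [div_mul_eq_mul_div, le_div_iff₀ (by linarith)]
    linarith
  have hcard : ((poles a b).card : ℝ) ≤ 4 * G a b ^ 2 := by
    calc ((poles a b).card : ℝ) = ∑ p ∈ poles a b, (1 : ℝ) := by simp
      _ ≤ ∑ p ∈ poles a b, Real.log p / np a b p * (4 * G a b) := Finset.sum_le_sum h2
      _ = (∑ p ∈ poles a b, Real.log p / np a b p) * (4 * G a b) := by rw [Finset.sum_mul]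
      _ ≤ G a b * (4 * G a b) := by gcongr
      _ = 4 * G a b ^ 2 := by ring
  calc ∑ p ∈ poles a b, (np a b p : ℝ) * Real.log p ≤ ∑ p ∈ poles a b, G a b := Finset.sum_le_sum h1
    _ = ((poles a b).card : ℝ) * G a b := by simp
    _ ≤ 4 * G a b ^ 2 * G a b := by gcongr
    _ = 4 * G a b ^ 3 := by ring

theorem L_le_cube (hq : QuasiMinimal a b) : L a b ≤ 30 * G a b ^ 3 := by
  have hG1 := one_le_G a b
  have hw := HeightData.wInf_nonneg (a := a) (b := b)
  have hm := max_nonneg a b
  have ha : 0 ≤ ∑ p ∈ addPrimes a b, Real.log p :=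
    Finset.sum_nonneg fun p _ => Real.log_natCast_nonneg p
  have hs0 : 0 ≤ ∑ p ∈ poles a b, Real.log p / np a b p :=
    Finset.sum_nonneg fun p _ => div_nonneg (Real.log_natCast_nonneg p) (Nat.cast_nonneg _)
  have hadd : wInf a b + ∑ p ∈ addPrimes a b, Real.log p ≤ G a b := by rw [G]; linarith
  have h6 := six_L_le hq.ne
  have hDsum : Real.log |((D a b : ℤ) : ℝ)| ≤ 21 * ∑ p ∈ poles a b, (np a b p : ℝ) * Real.log p
      + 20 * ∑ p ∈ addPrimes a b, Real.log p + 20 * (Real.log 2 + Real.log 3) := by
    rw [← log_natAbs hq.ne, log_eq_sum]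
    have hsub : (D a b).natAbs.primeFactors ⊆ (poles a b ∪ addPrimes a b) ∪
        ({2, 3} : Finset ℕ).filter (fun p => p ∉ poles a b) := by
      intro p hp
      by_cases h1 : p ∣ (jInv a b).den
      · refine Finset.mem_union_left _ (Finset.mem_union_left _ ?_)
        exact Nat.mem_primeFactors.mpr ⟨Nat.prime_of_mem_primeFactors hp, h1, (jInv a b).den_nz⟩
      · by_cases h2 : 5 ≤ p
        · refine Finset.mem_union_left _ (Finset.mem_union_right _ ?_)
          exact Finset.mem_filter.mpr ⟨hp, h2, h1⟩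
        · have hpp := Nat.prime_of_mem_primeFactors hp
          have := hpp.two_le
          push Not at h2
          have hnp : p ∉ poles a b := fun h => h1 (Nat.dvd_of_mem_primeFactors h)
          refine Finset.mem_union_right _ (Finset.mem_filter.mpr ⟨?_, hnp⟩)
          clear hnp h1 hp
          interval_cases p
          · simp
          · simp
          · norm_num at hpp
    have hterm : ∀ p : ℕ, 0 ≤ ((D a b).natAbs.factorization p : ℝ) * Real.log p := fun p =>
      mul_nonneg (Nat.cast_nonneg _) (Real.log_natCast_nonneg p)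
    have e1 : ∑ p ∈ (D a b).natAbs.primeFactors, ((D a b).natAbs.factorization p : ℝ) * Real.log p
        ≤ ∑ p ∈ poles a b, ((D a b).natAbs.factorization p : ℝ) * Real.log p
          + ∑ p ∈ addPrimes a b, ((D a b).natAbs.factorization p : ℝ) * Real.log p
          + ∑ p ∈ ({2, 3} : Finset ℕ).filter (fun p => p ∉ poles a b),
            ((D a b).natAbs.factorization p : ℝ) * Real.log p := by
      refine (Finset.sum_le_sum_of_subset_of_nonneg hsub fun p _ _ => hterm p).trans ?_
      have u1 := Finset.sum_union_inter (s₁ := poles a b ∪ addPrimes a b)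
        (s₂ := ({2, 3} : Finset ℕ).filter (fun p => p ∉ poles a b))
        (f := fun p => ((D a b).natAbs.factorization p : ℝ) * Real.log p)
      have u2 := Finset.sum_union_inter (s₁ := poles a b) (s₂ := addPrimes a b)
        (f := fun p => ((D a b).natAbs.factorization p : ℝ) * Real.log p)
      have u3 : 0 ≤ ∑ p ∈ (poles a b ∪ addPrimes a b) ∩
          ({2, 3} : Finset ℕ).filter (fun p => p ∉ poles a b), ((D a b).natAbs.factorization p : ℝ) * Real.log p := Finset.sum_nonneg fun p _ => hterm p
      have u4 : 0 ≤ ∑ p ∈ poles a b ∩ addPrimes a b,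
          ((D a b).natAbs.factorization p : ℝ) * Real.log p := Finset.sum_nonneg fun p _ => hterm p
      linarith
    have e2 : ∑ p ∈ poles a b, ((D a b).natAbs.factorization p : ℝ) * Real.log p
        ≤ 21 * ∑ p ∈ poles a b, (np a b p : ℝ) * Real.log p := by
      rw [Finset.mul_sum]
      refine Finset.sum_le_sum fun p hp => ?_
      have hn : 1 ≤ np a b p := HeightData.np_pos hp
      have h1 := fact_D_le hq (Nat.prime_of_mem_primeFactors hp)
      have h2 : ((D a b).natAbs.factorization p : ℝ) ≤ 21 * (np a b p : ℝ) := by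
        have : (D a b).natAbs.factorization p ≤ 21 * np a b p := by omega
        exact_mod_cast this
      have hl := Real.log_natCast_nonneg p
      nlinarith
    have e3 : ∑ p ∈ addPrimes a b, ((D a b).natAbs.factorization p : ℝ) * Real.log p
        ≤ 20 * ∑ p ∈ addPrimes a b, Real.log p := by
      rw [Finset.mul_sum]
      refine Finset.sum_le_sum fun p hp => ?_
      have hf := Finset.mem_filter.mp hp
      have h1 := fact_D_le hq (Nat.prime_of_mem_primeFactors hf.1)
      have hn : np a b p = 0 := Nat.factorization_eq_zero_of_not_dvd hf.2.2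
      rw [hn] at h1
      have h2 : ((D a b).natAbs.factorization p : ℝ) ≤ 20 := by exact_mod_cast h1
      have hl := Real.log_natCast_nonneg p
      nlinarith
    have e4 : ∑ p ∈ ({2, 3} : Finset ℕ).filter (fun p => p ∉ poles a b),
        ((D a b).natAbs.factorization p : ℝ) * Real.log p
        ≤ 20 * (Real.log 2 + Real.log 3) := by
      calc ∑ p ∈ ({2, 3} : Finset ℕ).filter (fun p => p ∉ poles a b),
            ((D a b).natAbs.factorization p : ℝ) * Real.log p
          ≤ ∑ p ∈ ({2, 3} : Finset ℕ).filter (fun p => p ∉ poles a b), 20 * Real.log p := by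
            refine Finset.sum_le_sum fun p hp => ?_
            have hf := Finset.mem_filter.mp hp
            have hpp : p.Prime := by
              have h1 := hf.1
              simp only [Finset.mem_insert, Finset.mem_singleton] at h1
              rcases h1 with h1 | h1 <;> rw [h1] <;> norm_num
            have h1 := fact_D_le hq hpp
            have hn : np a b p = 0 := by
              by_contra hne
              apply hf.2
              rw [poles, ← Nat.support_factorization]
              exact Finsupp.mem_support_iff.mpr hne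
            rw [hn] at h1
            have h2 : ((D a b).natAbs.factorization p : ℝ) ≤ 20 := by exact_mod_cast h1
            have hl := Real.log_natCast_nonneg p
            nlinarith
        _ ≤ ∑ p ∈ ({2, 3} : Finset ℕ), 20 * Real.log p :=
            Finset.sum_le_sum_of_subset_of_nonneg (Finset.filter_subset _ _)
              fun p _ _ => mul_nonneg (by norm_num) (Real.log_natCast_nonneg p)
        _ = 20 * (Real.log 2 + Real.log 3) := by
            rw [Finset.sum_pair (by norm_num)]
            push_cast; ring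
    linarith
  have hc := sum_poles_cube a b
  have hG3 : G a b ≤ G a b ^ 3 := by
    have : (1 : ℝ) ≤ G a b ^ 2 := one_le_pow₀ hG1
    nlinarith
  have l2 : Real.log 2 ≤ 1 := by linarith [Real.log_two_lt_d9]
  have l3 : Real.log 3 ≤ 2 := by
    have := Real.log_le_sub_one_of_pos (show (0 : ℝ) < 3 by norm_num)
    linarith
  linarith

end Pool.Agent.H24.LP
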