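import Pool.Agent.H24.LP.Defs

/-!
# Few rational points of small height
-/

namespace Pool.Agent.H24.LP

open Finset

/-- A set all of whose finite subsets have at most `N` elements. -/
theorem finite_of_card_le {α : Type*} {X : Set α} {N : ℕ}
    (h : ∀ s : Finset α, (s : Set α) ⊆ X → s.card ≤ N) : X.Finite ∧ X.ncard ≤ N := by
  classical
  have hf : X.Finite := by
    by_contra hi
    obtain ⟨s, hs, hc⟩ := Set.Infinite.exists_subset_card_eq hi (N + 1)
    have := h s hs
    omega
  refine ⟨hf, ?_⟩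
  rw [Set.ncard_eq_toFinset_card X hf]
  exact h _ (by simp)

/-- The arc of length `1/12` of a point of the circle. -/
noncomputable def arc (t : AddCircle (1 : ℝ)) : ℕ :=
  ⌊12 * ((AddCircle.equivIco (1 : ℝ) 0 t : Set.Ico (0 : ℝ) (0 + 1)) : ℝ)⌋₊

lemma arc_lt (t : AddCircle (1 : ℝ)) : arc t < 12 := by
  have h := (AddCircle.equivIco (1 : ℝ) 0 t).2
  rw [arc, Nat.floor_lt (by nlinarith [h.1])]
  have := h.2
  push_cast
  linarith

lemma arc_near {t u : AddCircle (1 : ℝ)} (h : arc t = arc u) : ‖t - u‖ ≤ 1 / 12 := by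
  set x : ℝ := ((AddCircle.equivIco (1 : ℝ) 0 t : Set.Ico (0 : ℝ) (0 + 1)) : ℝ) with hx
  set y : ℝ := ((AddCircle.equivIco (1 : ℝ) 0 u : Set.Ico (0 : ℝ) (0 + 1)) : ℝ) with hy
  have h1 := (AddCircle.equivIco (1 : ℝ) 0 t).2
  have h2 := (AddCircle.equivIco (1 : ℝ) 0 u).2
  have ht : (x : AddCircle (1 : ℝ)) = t := AddCircle.coe_equivIco
  have hu : (y : AddCircle (1 : ℝ)) = u := AddCircle.coe_equivIco
  have hx0 : 0 ≤ x := h1.1
  have hy0 : 0 ≤ y := h2.1
  have e : ⌊12 * x⌋₊ = ⌊12 * y⌋₊ := h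
  have a1 := Nat.floor_le (a := 12 * x) (by linarith)
  have a2 := Nat.lt_floor_add_one (12 * x)
  have a3 := Nat.floor_le (a := 12 * y) (by linarith)
  have a4 := Nat.lt_floor_add_one (12 * y)
  rw [e] at a1 a2
  have hd : |x - y| ≤ 1 / 12 := by
    rw [abs_le]; constructor <;> linarith
  rw [← ht, ← hu, ← AddCircle.coe_sub, norm_coe]
  refine le_trans ?_ hd
  have := round_le (x - y) 0
  simpa using this

variable {c : ℝ} {a b : ℤ} (X : HeightData c a b)

namespace HeightData

/-- The right side of the local decomposition, without `- c`. -/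
noncomputable def K (P : (curve a b).Point) : ℝ := by
  classical
  exact bern (X.tInf P) / 2 * wInf a b
      + ∑ p ∈ poles a b, bern (X.t p P) / 2 * (np a b p * Real.log p)
      + ∑ p ∈ addPrimes a b, (if P ∈ X.E0 p then (1 : ℝ) else 0) *
          ((D a b).natAbs.factorization p * Real.log p / 12)

lemma lower' {P : (curve a b).Point} (hP : P ≠ 0) : X.K P - c ≤ X.h P := X.lower P hP

lemma wInf_nonneg : 0 ≤ wInf a b := le_max_left _ _

lemma bern_zero : bern 0 = 1 / 6 := by simp [bern]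

lemma K_zero : X.K 0 = (wInf a b + ∑ p ∈ poles a b, (np a b p * Real.log p)
      + ∑ p ∈ addPrimes a b, (D a b).natAbs.factorization p * Real.log p) / 12 := by
  classical
  have e1 : ∀ p, X.t p 0 = 0 := fun p => map_zero _
  have e0 : X.tInf 0 = 0 := map_zero _
  have e2 : ∀ p, (0 : (curve a b).Point) ∈ X.E0 p := fun p => (X.E0 p).zero_mem
  unfold K
  simp only [e1, e0, e2, if_true, bern_zero, one_mul]
  rw [add_div, add_div, Finset.sum_div, Finset.sum_div]
  have : ∑ p ∈ poles a b, (1 / 6 : ℝ) / 2 * (np a b p * Real.log p)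
      = ∑ p ∈ poles a b, (np a b p * Real.log p) / 12 :=
    Finset.sum_congr rfl fun p _ => by ring
  rw [this]
  ring

lemma np_pos {p : ℕ} (hp : p ∈ poles a b) : 1 ≤ np a b p := by
  have h := Nat.mem_primeFactors.mp hp
  exact (h.1.dvd_iff_one_le_factorization h.2.2).mp h.2.1

lemma log_nonneg' (p : ℕ) : 0 ≤ Real.log (p : ℝ) := Real.log_natCast_nonneg p

/-- The energy of a set of points in one cell. -/
theorem energy_K (s : Finset (curve a b).Point) (q : ℕ)
    (hq : (np a b q : ℝ) * Real.log q = ⨆ p : ℕ, (np a b p : ℝ) * Real.log p)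
    (h0 : ∀ P ∈ s, ∀ Q ∈ s, ‖X.tInf P - X.tInf Q‖ ≤ 1 / 12)
    (h1 : ∀ P ∈ s, ∀ Q ∈ s, ‖X.t q P - X.t q Q‖ ≤ 1 / 12) :
    (s.card : ℝ) ^ 2 * ((G a b - 1) / 48) ≤ ∑ P ∈ s, ∑ Q ∈ s, X.K (P - Q) := by
  classical
  set M : ℝ := (s.card : ℝ) with hM
  have hM0 : 0 ≤ M ^ 2 := sq_nonneg _
  -- the energies
  have eI : M ^ 2 / 12 ≤ ∑ P ∈ s, ∑ Q ∈ s, bern (X.tInf P - X.tInf Q) :=
    energy_cell s (fun P => X.tInf P) h0
  have ep : ∀ p ∈ poles a b,
      M ^ 2 / (24 * (np a b p : ℝ) ^ 2) ≤ ∑ P ∈ s, ∑ Q ∈ s, bern (X.t p P - X.t p Q) := by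
    intro p hp
    have h := energy_ge s (fun P => X.t p P) (N := 2 * np a b p)
      (by have := np_pos hp; omega) (fun P _ => X.t_tors p hp P)
    refine le_trans (le_of_eq ?_) h
    push_cast
    rw [← hM]
    ring
  have eq0 : ∀ p, 0 ≤ ∑ P ∈ s, ∑ Q ∈ s, bern (X.t p P - X.t p Q) :=
    fun p => energy_nonneg s (fun P => X.t p P)
  have eq1 : M ^ 2 / 12 ≤ ∑ P ∈ s, ∑ Q ∈ s, bern (X.t q P - X.t q Q) :=
    energy_cell s (fun P => X.t q P) h1
  have eE : ∀ p ∈ addPrimes a b,
      M ^ 2 / 4 ≤ ∑ P ∈ s, ∑ Q ∈ s, if P - Q ∈ X.E0 p then (1 : ℝ) else 0 := fun p hp =>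
    energy_subgroup (X.E0 p) (X.E0_index p hp).2 (X.E0_index p hp).1 s
  -- the double sum
  have key : ∑ P ∈ s, ∑ Q ∈ s, X.K (P - Q)
      = (∑ P ∈ s, ∑ Q ∈ s, bern (X.tInf P - X.tInf Q)) / 2 * wInf a b
        + ∑ p ∈ poles a b, (∑ P ∈ s, ∑ Q ∈ s, bern (X.t p P - X.t p Q)) / 2 *
            (np a b p * Real.log p)
        + ∑ p ∈ addPrimes a b, (∑ P ∈ s, ∑ Q ∈ s, if P - Q ∈ X.E0 p then (1 : ℝ) else 0) *
            ((D a b).natAbs.factorization p * Real.log p / 12) := by
    unfold K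
    simp only [map_sub, Finset.sum_add_distrib]
    congr 1
    · congr 1
      · simp only [Finset.sum_div, Finset.sum_mul]
      · rw [Finset.sum_congr rfl fun P _ => Finset.sum_comm, Finset.sum_comm]
        simp only [Finset.sum_div, Finset.sum_mul]
    · rw [Finset.sum_congr rfl fun P _ => Finset.sum_comm, Finset.sum_comm]
      simp only [Finset.sum_mul]
  rw [key]
  -- the archimedean term
  have b1 : M ^ 2 * (wInf a b / 48) ≤
      (∑ P ∈ s, ∑ Q ∈ s, bern (X.tInf P - X.tInf Q)) / 2 * wInf a b := by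
    have hw := wInf_nonneg (a := a) (b := b)
    calc M ^ 2 * (wInf a b / 48) ≤ M ^ 2 / 12 / 2 * wInf a b := by nlinarith [mul_nonneg hM0 hw]
      _ ≤ _ := by gcongr
  -- the additive primes
  have b3 : M ^ 2 * ((∑ p ∈ addPrimes a b, Real.log p) / 48) ≤
      ∑ p ∈ addPrimes a b, (∑ P ∈ s, ∑ Q ∈ s, if P - Q ∈ X.E0 p then (1 : ℝ) else 0) *
            ((D a b).natAbs.factorization p * Real.log p / 12) := by
    rw [Finset.sum_div, Finset.mul_sum]
    refine Finset.sum_le_sum fun p hp => ?_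
    have hp1 : 1 ≤ (D a b).natAbs.factorization p := by
      have h := Nat.mem_primeFactors.mp (Finset.mem_filter.mp hp).1
      exact (h.1.dvd_iff_one_le_factorization h.2.2).mp h.2.1
    have hp2 : (1 : ℝ) ≤ ((D a b).natAbs.factorization p : ℝ) := by exact_mod_cast hp1
    have hl := log_nonneg' p
    calc M ^ 2 * (Real.log p / 48) = M ^ 2 / 4 * (1 * Real.log p / 12) := by ring
      _ ≤ _ := by
        gcongr
        exact eE p hp
  -- the poles
  have b2 : M ^ 2 * ((⨆ p : ℕ, (np a b p : ℝ) * Real.log p) / 48)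
      + M ^ 2 * ((∑ p ∈ poles a b, Real.log p / np a b p) / 48) ≤
      ∑ p ∈ poles a b, (∑ P ∈ s, ∑ Q ∈ s, bern (X.t p P - X.t p Q)) / 2 *
            (np a b p * Real.log p) := by
    have hgen : ∀ p ∈ poles a b, M ^ 2 * (Real.log p / np a b p / 48) ≤
        (∑ P ∈ s, ∑ Q ∈ s, bern (X.t p P - X.t p Q)) / 2 * (np a b p * Real.log p) := by
      intro p hp
      have hn : (1 : ℝ) ≤ np a b p := by exact_mod_cast np_pos hp
      have hl := log_nonneg' p
      calc M ^ 2 * (Real.log p / np a b p / 48)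
          = M ^ 2 / (24 * (np a b p : ℝ) ^ 2) / 2 * (np a b p * Real.log p) := by
            field_simp
            ring
        _ ≤ _ := by
          gcongr
          exact ep p hp
    by_cases hqp : q ∈ poles a b
    · rw [← Finset.add_sum_erase (poles a b) (fun p => (∑ P ∈ s, ∑ Q ∈ s,
          bern (X.t p P - X.t p Q)) / 2 * (np a b p * Real.log p)) hqp,
        ← Finset.add_sum_erase (poles a b) (fun p => Real.log p / np a b p) hqp]
      have hn : (1 : ℝ) ≤ np a b q := by exact_mod_cast np_pos hqp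
      have hl := log_nonneg' q
      have h2 : M ^ 2 * ((∑ p ∈ (poles a b).erase q, Real.log p / np a b p) / 48) ≤
          ∑ p ∈ (poles a b).erase q, (∑ P ∈ s, ∑ Q ∈ s, bern (X.t p P - X.t p Q)) / 2 *
            (np a b p * Real.log p) := by
        rw [Finset.sum_div, Finset.mul_sum]
        exact Finset.sum_le_sum fun p hp => hgen p (Finset.mem_of_mem_erase hp)
      have h3 : M ^ 2 * ((np a b q * Real.log q) / 48) + M ^ 2 * (Real.log q / np a b q / 48) ≤
          (∑ P ∈ s, ∑ Q ∈ s, bern (X.t q P - X.t q Q)) / 2 * (np a b q * Real.log q) := by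
        have h4 : Real.log q / np a b q ≤ np a b q * Real.log q := by
          rw [div_le_iff₀ (by linarith)]
          have h5 : (1 : ℝ) ≤ (np a b q : ℝ) * np a b q := by nlinarith
          have h6 := mul_le_mul_of_nonneg_right h5 hl
          linarith
        calc M ^ 2 * ((np a b q * Real.log q) / 48) + M ^ 2 * (Real.log q / np a b q / 48)
            ≤ M ^ 2 * ((np a b q * Real.log q) / 48) + M ^ 2 * ((np a b q * Real.log q) / 48) := by
              gcongr
          _ = M ^ 2 / 12 / 2 * (np a b q * Real.log q) := by ring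
          _ ≤ _ := by gcongr
      rw [← hq]
      have : M ^ 2 * ((Real.log q / np a b q + ∑ p ∈ (poles a b).erase q,
          Real.log p / np a b p) / 48) = M ^ 2 * (Real.log q / np a b q / 48) +
          M ^ 2 * ((∑ p ∈ (poles a b).erase q, Real.log p / np a b p) / 48) := by ring
      rw [this]
      linarith
    · have hz : (np a b q : ℝ) * Real.log q = 0 := by
        have : np a b q = 0 := by
          by_contra hne
          apply hqp
          rw [poles, ← Nat.support_factorization]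
          exact Finsupp.mem_support_iff.mpr hne
        rw [this]; simp
      rw [← hq, hz]
      simp only [zero_div, mul_zero, zero_add]
      rw [Finset.sum_div, Finset.mul_sum]
      exact Finset.sum_le_sum hgen
  have hG : (G a b - 1) / 48 = wInf a b / 48 + (⨆ p : ℕ, (np a b p : ℝ) * Real.log p) / 48
      + (∑ p ∈ poles a b, Real.log p / np a b p) / 48
      + (∑ p ∈ addPrimes a b, Real.log p) / 48 := by
    rw [G]; ring
  rw [hG]
  nlinarith [b1, b2, b3]

end HeightData

end Pool.Agent.H24.LP
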