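import Pool.Agent.H24.LP.Small

/-!
# Few rational points of small height, II
-/

namespace Pool.Agent.H24.LP

open Finset

lemma range_finite (a b : ℤ) : (Set.range fun p : ℕ => (np a b p : ℝ) * Real.log p).Finite := by
  classical
  have : (Set.range fun p : ℕ => (np a b p : ℝ) * Real.log p) ⊆
      ((insert 0 ((poles a b).image fun p : ℕ => (np a b p : ℝ) * Real.log p) : Finset ℝ) : Set ℝ) := by
    rintro _ ⟨p, rfl⟩
    by_cases hp : p ∈ poles a b
    · simp only [Finset.coe_insert, Finset.coe_image]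
      exact Or.inr ⟨p, hp, rfl⟩
    · have : np a b p = 0 := by
        by_contra hne
        apply hp
        rw [poles, ← Nat.support_factorization]
        exact Finsupp.mem_support_iff.mpr hne
      simp [this]
  exact (Finset.finite_toSet _).subset this

lemma exists_max (a b : ℤ) :
    ∃ q : ℕ, (np a b q : ℝ) * Real.log q = ⨆ p : ℕ, (np a b p : ℝ) * Real.log p :=
  (Set.range_nonempty _).csSup_mem (range_finite a b)

lemma le_max (a b : ℤ) (p : ℕ) :
    (np a b p : ℝ) * Real.log p ≤ ⨆ p : ℕ, (np a b p : ℝ) * Real.log p :=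
  le_ciSup (range_finite a b).bddAbove p

lemma max_nonneg (a b : ℤ) : 0 ≤ ⨆ p : ℕ, (np a b p : ℝ) * Real.log p :=
  le_trans (mul_nonneg (Nat.cast_nonneg _) (Real.log_natCast_nonneg 0)) (le_max a b 0)

lemma one_le_G (a b : ℤ) : 1 ≤ G a b := by
  rw [G]
  have h1 := HeightData.wInf_nonneg (a := a) (b := b)
  have h2 := max_nonneg a b
  have h3 : 0 ≤ ∑ p ∈ poles a b, Real.log p / np a b p :=
    Finset.sum_nonneg fun p _ => div_nonneg (Real.log_natCast_nonneg p) (Nat.cast_nonneg _)
  have h4 : 0 ≤ ∑ p ∈ addPrimes a b, Real.log p :=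
    Finset.sum_nonneg fun p _ => Real.log_natCast_nonneg p
  linarith

lemma L_pos (a b : ℤ) : 0 < L a b :=
  lt_of_lt_of_le (Real.log_pos (by norm_num)) (le_max_left _ _)

variable {c : ℝ} {a b : ℤ} (X : HeightData c a b)

namespace HeightData

lemma h_sub_le (P Q : (curve a b).Point) : X.h (P - Q) ≤ 2 * X.h P + 2 * X.h Q := by
  have h1 := X.par P Q
  have h2 := X.nonneg (P + Q)
  linarith

theorem cell_card (hc : 0 ≤ c) (hG : 200 * (c + 1) ≤ G a b) (hK : X.K 0 ≤ 4 * L a b)
    (s : Finset (curve a b).Point) (q : ℕ)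
    (hq : (np a b q : ℝ) * Real.log q = ⨆ p : ℕ, (np a b p : ℝ) * Real.log p)
    (h0 : ∀ P ∈ s, ∀ Q ∈ s, ‖X.tInf P - X.tInf Q‖ ≤ 1 / 12)
    (h1 : ∀ P ∈ s, ∀ Q ∈ s, ‖X.t q P - X.t q Q‖ ≤ 1 / 12)
    (hs : ∀ P ∈ s, X.h P < G a b / 1000) : (s.card : ℝ) ≤ 400 * L a b / G a b := by
  classical
  have hE := X.energy_K s q hq h0 h1
  have hG0 : 0 < G a b := by nlinarith
  set g : ℝ := 4 * (G a b / 1000) + c with hg
  have hg0 : 0 ≤ g := by rw [hg]; positivity
  have hle : ∀ P ∈ s, ∀ Q ∈ s, X.K (P - Q) ≤ (if P = Q then 4 * L a b else 0) + g := by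
    intro P hP Q hQ
    by_cases hPQ : P = Q
    · subst hPQ
      simp only [sub_self, if_true]
      linarith
    · simp only [hPQ, if_false, zero_add]
      have h2 := X.lower' (sub_ne_zero.mpr hPQ)
      have h3 := X.h_sub_le P Q
      have h4 := hs P hP
      have h5 := hs Q hQ
      rw [hg]; linarith
  have hU : ∑ P ∈ s, ∑ Q ∈ s, X.K (P - Q) ≤ (s.card : ℝ) * (4 * L a b) + (s.card : ℝ) ^ 2 * g := by
    calc ∑ P ∈ s, ∑ Q ∈ s, X.K (P - Q)
        ≤ ∑ P ∈ s, ∑ Q ∈ s, ((if P = Q then 4 * L a b else 0) + g) :=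
          Finset.sum_le_sum fun P hP => Finset.sum_le_sum fun Q hQ => hle P hP Q hQ
      _ = (s.card : ℝ) * (4 * L a b) + (s.card : ℝ) ^ 2 * g := by
          simp only [Finset.sum_add_distrib, Finset.sum_const, nsmul_eq_mul]
          congr 1
          · rw [Finset.sum_congr rfl (fun P hP => by
              rw [Finset.sum_ite_eq s P (fun _ => 4 * L a b), if_pos hP] :
              ∀ P ∈ s, (∑ Q ∈ s, if P = Q then 4 * L a b else 0) = 4 * L a b)]
            simp
          · ring
  set M : ℝ := (s.card : ℝ) with hM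
  have hM0 : 0 ≤ M := Nat.cast_nonneg _
  rcases hM0.eq_or_lt with h | h
  · rw [← h]
    have := L_pos a b
    positivity
  have h6 : M * ((G a b - 1) / 48) ≤ 4 * L a b + M * g := by
    have h7 : M * (M * ((G a b - 1) / 48)) ≤ M * (4 * L a b + M * g) := by nlinarith
    exact le_of_mul_le_mul_left h7 h
  rw [le_div_iff₀ hG0]
  have h8 : G a b / 100 ≤ (G a b - 1) / 48 - g := by rw [hg]; linarith
  nlinarith

theorem small_card (hc : 0 ≤ c) (hG : 200 * (c + 1) ≤ G a b) (hK : X.K 0 ≤ 4 * L a b)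
    (s : Finset (curve a b).Point) (hs : ∀ P ∈ s, X.h P < G a b / 1000) :
    (s.card : ℝ) ≤ 57600 * (L a b / G a b) := by
  classical
  obtain ⟨q, hq⟩ := exists_max a b
  have hG0 : 0 < G a b := by nlinarith
  have hL := L_pos a b
  let f : (curve a b).Point → ℕ × ℕ := fun P => (arc (X.tInf P), arc (X.t q P))
  set N : ℕ := ⌊400 * L a b / G a b⌋₊ with hN
  have h1 : s.card ≤ N * (Finset.range 12 ×ˢ Finset.range 12).card := by
    refine Finset.card_le_mul_card_image_of_maps_to (f := f) (t := Finset.range 12 ×ˢ Finset.range 12)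
      (fun P _ => ?_) N (fun z _ => ?_)
    · simp only [f, Finset.mem_product, Finset.mem_range]
      exact ⟨arc_lt _, arc_lt _⟩
    · rw [hN]
      refine Nat.le_floor ?_
      refine X.cell_card hc hG hK _ q hq ?_ ?_ ?_
      · intro P hP Q hQ
        rw [Finset.mem_filter] at hP hQ
        apply arc_near
        have := hP.2.trans hQ.2.symm
        exact (Prod.mk.inj this).1
      · intro P hP Q hQ
        rw [Finset.mem_filter] at hP hQ
        apply arc_near
        have := hP.2.trans hQ.2.symm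
        exact (Prod.mk.inj this).2
      · intro P hP
        exact hs P (Finset.mem_filter.mp hP).1
  have h2 : (N : ℝ) ≤ 400 * L a b / G a b := Nat.floor_le (by positivity)
  have h3 : (s.card : ℝ) ≤ (N : ℝ) * 144 := by
    have : s.card ≤ N * 144 := by simpa using h1
    exact_mod_cast this
  calc (s.card : ℝ) ≤ (N : ℝ) * 144 := h3
    _ ≤ 400 * L a b / G a b * 144 := by gcongr
    _ = 57600 * (L a b / G a b) := by ring

lemma h_zero : X.h 0 = 0 := by
  have := X.par 0 0
  simp only [add_zero, sub_zero] at this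
  linarith

lemma h_nsmul (n : ℕ) (P : (curve a b).Point) : X.h (n • P) = (n : ℝ) ^ 2 * X.h P := by
  induction n using Nat.strong_induction_on with
  | _ n ih =>
    match n with
    | 0 => simp [X.h_zero]
    | 1 => simp
    | n + 2 =>
      have h1 := X.par ((n + 1) • P) P
      have h2 : (n + 1) • P + P = (n + 2) • P := by
        rw [← succ_nsmul]
      have h3 : (n + 1) • P - P = n • P := by
        rw [succ_nsmul]; abel
      rw [h2, h3, ih n (by omega), ih (n + 1) (by omega)] at h1
      push_cast at h1 ⊢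
      linarith

lemma h_torsion {P : (curve a b).Point} {n : ℕ} (hn : n ≠ 0) (h : n • P = 0) : X.h P = 0 := by
  have h1 := X.h_nsmul n P
  rw [h, X.h_zero] at h1
  have : (n : ℝ) ^ 2 ≠ 0 := by positivity
  rcases mul_eq_zero.mp h1.symm with h2 | h2
  · exact absurd h2 this
  · exact h2

end HeightData

end Pool.Agent.H24.LP
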